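import Pool.Agent.H974T.Bw

/-!
# Every volume-preserving torus of bounded degree lies in one with bounded weights

For all `n` and `D` there is a bound `C` such that every volume-preserving algebraic action of a
torus on affine `n`-space by automorphisms of degree at most `D` factors through a faithful
volume-preserving action of a torus of dimension less than `n`, again by automorphisms of degree
at most `D`, which has a fixed point with weights bounded by `C`.
-/

set_option autoImplicit false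

open MvPolynomial

namespace Pool.Agent.Results.MP_51eb24_ag.BoundedWeights

/-- An action of the group `(k^*)^d` on affine `n`-space by polynomial automorphisms. -/
abbrev Action (k : Type) [Field k] (d n : ℕ) : Type :=
  (Fin d → kˣ) →* (MvPolynomial (Fin n) k ≃ₐ[k] MvPolynomial (Fin n) k)

variable {k : Type} [Field k] {d n : ℕ}

/-- The action `ρ` is algebraic: up to a power of `∏ t_i`, the polynomials `ρ t (X_j)` are
polynomials in `t` and `X`. -/
def IsAlgebraicAction (ρ : Action k d n) : Prop :=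
  ∃ (m : ℕ) (F : Fin n → MvPolynomial (Fin d ⊕ Fin n) k),
    ∀ (t : Fin d → kˣ) (j : Fin n),
      C ((∏ i, ((t i : kˣ) : k)) ^ m) * ρ t (X j) =
        aeval (Sum.elim (fun i : Fin d => C ((t i : kˣ) : k))
          (fun l : Fin n => (X l : MvPolynomial (Fin n) k))) (F j)

/-- The automorphisms `ρ t` have Jacobian determinant one. -/
def IsVolumePreserving (ρ : Action k d n) : Prop :=
  ∀ t : Fin d → kˣ, (Matrix.of fun i j : Fin n => pderiv i (ρ t (X j))).det = 1

/-- The automorphisms `ρ t` have degree at most `D`. -/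
def HasDegreeAtMost (D : ℕ) (ρ : Action k d n) : Prop :=
  ∀ (t : Fin d → kˣ) (j : Fin n), (ρ t (X j)).totalDegree ≤ D

/-- A volume-preserving algebraic action by automorphisms of degree at most `D`. -/
def IsVPAction (D : ℕ) (ρ : Action k d n) : Prop :=
  IsAlgebraicAction ρ ∧ IsVolumePreserving ρ ∧ HasDegreeAtMost D ρ

/-- `ρ` factors through `ρ'` by an algebraic homomorphism of tori. -/
def FactorsThrough {d' : ℕ} (ρ : Action k d n) (ρ' : Action k d' n) : Prop :=
  ∃ c : Fin d' → Fin d → ℤ, ∀ t : Fin d → kˣ, ρ t = ρ' (fun j => ∏ l, t l ^ c j l)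

/-- `P` is a fixed point of `ρ`, and after the change of basis by the invertible matrix `M` the
linear part of `ρ` at `P` is diagonal, with the weights `b_1, ..., b_n` (the `j`-th diagonal entry
is the character `∏ t_l ^ (b_j l)`). -/
def HasWeightsAt (ρ : Action k d n) (P : Fin n → k) (M : Matrix (Fin n) (Fin n) k)
    (b : Fin n → Fin d → ℤ) : Prop :=
  M.det ≠ 0 ∧
  (∀ (t : Fin d → kˣ) (i : Fin n), eval P (ρ t (X i)) = P i) ∧
  ∀ t : Fin d → kˣ,
    (Matrix.of fun i j : Fin n => eval P (pderiv i (ρ t (X j)))) * M =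
    M * Matrix.diagonal (fun j => ((∏ l, t l ^ b j l : kˣ) : k))

/-- `ρ` has a fixed point at which its weights are bounded by `C`. -/
def HasWeightsBoundedBy (C : ℕ) (ρ : Action k d n) : Prop :=
  ∃ (P : Fin n → k) (M : Matrix (Fin n) (Fin n) k) (b : Fin n → Fin d → ℤ),
    HasWeightsAt ρ P M b ∧ ∀ i j, |b i j| ≤ C

theorem result (n D : ℕ) (hn : 1 < n) :
    ∃ C : ℕ, ∀ (k : Type) [Field k] [IsAlgClosed k] [CharZero k] (d : ℕ) (ρ : Action k d n),
      IsVPAction D ρ →
      ∃ (d' : ℕ) (ρ' : Action k d' n), d' ≤ n - 1 ∧ IsVPAction D ρ' ∧ Function.Injective ρ' ∧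
        FactorsThrough ρ ρ' ∧ HasWeightsBoundedBy C ρ' := by
  classical
  obtain ⟨C, hC⟩ := H974T.exists_bounded n D (by omega)
  refine ⟨C, ?_⟩
  rintro k _ _ _ d ρ ⟨halg, hvol, hdeg⟩
  obtain ⟨x, hx⟩ := H974T.IsAlg.exists_rep (ρ := ρ) halg
  obtain ⟨d', ρ', x', c, P, M, b, hd, hx', hvol', hdeg', hinj, hcomp, hM, hnorm, hb⟩ :=
    hC k (by exact_mod_cast (two_ne_zero : (2 : ℕ) ≠ 0)) d ρ x hx hvol hdeg
  exact ⟨d', ρ', by omega, ⟨hx'.isAlg, hvol', hdeg'⟩, hinj, ⟨c, hcomp⟩,
    ⟨P, M, b, ⟨hM, hnorm.fix, hnorm.lin⟩, hb⟩⟩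

end Pool.Agent.Results.MP_51eb24_ag.BoundedWeights
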