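import Pool.Agent.H974T.Gen

/-!
# Volume-preserving torus actions of bounded degree with generic weights are linearizable

Let `ρ` be a volume-preserving algebraic action of `(k^*)^d` on affine `n`-space by automorphisms
of degree at most `D`, and let `a_1, ..., a_n` be its weights at a fixed point `P` (they always
satisfy `a_1 + ... + a_n = 0`).  If this is, up to multiples, the only relation
`∑ p_i a_i = ∑ q_i a_i` with `p_i, q_i ≥ 0`, `∑ p_i ≤ D ^ 2`, `∑ q_i ≤ D ^ 2`, then `ρ` is
conjugate to the diagonal action with the weights `a_1, ..., a_n`.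
-/

set_option autoImplicit false

open MvPolynomial

namespace Pool.Agent.Results.MP_51eb24_ag.GenericWeights

theorem result (k : Type*) [Field k] [IsAlgClosed k] (n d D : ℕ)
    (ρ : (Fin d → kˣ) →* (MvPolynomial (Fin n) k ≃ₐ[k] MvPolynomial (Fin n) k))
    -- the action is algebraic
    (halg : ∃ (m : ℕ) (F : Fin n → MvPolynomial (Fin d ⊕ Fin n) k),
      ∀ (t : Fin d → kˣ) (j : Fin n),
        MvPolynomial.C ((∏ i, ((t i : kˣ) : k)) ^ m) * ρ t (MvPolynomial.X j) =
          MvPolynomial.aeval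
            (Sum.elim (fun i : Fin d => MvPolynomial.C ((t i : kˣ) : k))
              (fun l : Fin n => (MvPolynomial.X l : MvPolynomial (Fin n) k))) (F j))
    -- it is volume-preserving
    (hvol : ∀ t : Fin d → kˣ,
      (Matrix.of fun i j : Fin n => MvPolynomial.pderiv i (ρ t (MvPolynomial.X j))).det = 1)
    -- it is by automorphisms of degree at most `D`
    (hdeg : ∀ (t : Fin d → kˣ) (j : Fin n), (ρ t (MvPolynomial.X j)).totalDegree ≤ D)
    -- it fixes the point `P`, and the base change by `M` makes its linear part at `P` diagonal,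
    -- with the weights `a`
    (P : Fin n → k) (M : Matrix (Fin n) (Fin n) k) (a : Fin n → Fin d → ℤ) (hM : M.det ≠ 0)
    (hfix : ∀ (t : Fin d → kˣ) (i : Fin n),
      MvPolynomial.eval P (ρ t (MvPolynomial.X i)) = P i)
    (hlin : ∀ t : Fin d → kˣ,
      (Matrix.of fun i j : Fin n =>
        MvPolynomial.eval P (MvPolynomial.pderiv i (ρ t (MvPolynomial.X j)))) * M =
      M * Matrix.diagonal (fun j => ((∏ l, t l ^ a j l : kˣ) : k)))
    -- the short relations between the weights are multiples of `a_1 + ... + a_n = 0`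
    (hshort : ∀ p q : Fin n → ℕ, ∑ i, p i ≤ D ^ 2 → ∑ i, q i ≤ D ^ 2 →
      ∑ i, p i • a i = ∑ i, q i • a i → ∃ m : ℤ, ∀ i, (p i : ℤ) - q i = m) :
    ∃ φ : MvPolynomial (Fin n) k ≃ₐ[k] MvPolynomial (Fin n) k,
      ∀ (t : Fin d → kˣ) (j : Fin n),
        (φ * ρ t * φ⁻¹) (MvPolynomial.X j) =
          MvPolynomial.C ((∏ l, t l ^ a j l : kˣ) : k) * MvPolynomial.X j := by
  classical
  have : Infinite k := IsAlgClosed.instInfinite
  have hM' : M * M⁻¹ = 1 := Matrix.mul_nonsing_inv M (isUnit_iff_ne_zero.2 hM)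
  have hnorm : H974T.NormalAt ρ P M a := ⟨hfix, hlin⟩
  obtain ⟨x, hx⟩ := H974T.IsAlg.exists_rep (ρ := ρ) halg
  have h1 : H974T.DiagWith ρ a := by
    refine H974T.DiagWith.of_conj (H974T.affEquiv P hM') ?_
    refine H974T.diagWith_of_generic (hx.conj _) (hnorm.normal hM')
      (H974T.totalDegree_conj hdeg P hM') (hnorm.sum_eq_zero hM hvol) ?_
    intro p q hp hq hpq
    rw [H974T.degree_eq_sum'] at hp hq
    exact hshort p q hp hq hpq
  obtain ⟨φ, hφ⟩ := h1
  refine ⟨φ, fun t j => ?_⟩
  rw [hφ, smul_eq_C_mul]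
  rfl

end Pool.Agent.Results.MP_51eb24_ag.GenericWeights
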