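import Pool.Agent.H974T.Gap2

/-!
# Torus actions of degree at most two are linearizable

Every algebraic action of a torus `(k^*)^d` on affine `n`-space by automorphisms of degree at most
`2` is linearizable (no restriction on `n` and `d`; the action need not preserve the volume).

More generally this holds if, at some fixed point `P` and for some `s`, the Taylor expansions of
the automorphisms contain only monomials of degree at most `1` and of degree between `s + 1` and
`2 s`.  (For `s = 1` this is the condition that the degree is at most two.)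
-/

set_option autoImplicit false

open MvPolynomial

namespace Pool.Agent.Results.MP_51eb24_ag.Quadratic

theorem result (k : Type*) [Field k] [IsAlgClosed k] [CharZero k] (n d : ℕ)
    (ρ : (Fin d → kˣ) →* (MvPolynomial (Fin n) k ≃ₐ[k] MvPolynomial (Fin n) k))
    -- the action is algebraic
    (halg : ∃ (m : ℕ) (F : Fin n → MvPolynomial (Fin d ⊕ Fin n) k),
      ∀ (t : Fin d → kˣ) (j : Fin n),
        MvPolynomial.C ((∏ i, ((t i : kˣ) : k)) ^ m) * ρ t (MvPolynomial.X j) =
          MvPolynomial.aeval
            (Sum.elim (fun i : Fin d => MvPolynomial.C ((t i : kˣ) : k))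
              (fun l : Fin n => (MvPolynomial.X l : MvPolynomial (Fin n) k))) (F j))
    -- it is by automorphisms of degree at most `2`, or, more generally, the Taylor expansions at
    -- some fixed point `P` have only terms of degree `0`, `1` and `s + 1`, ..., `2 s`
    (h : (∀ (t : Fin d → kˣ) (j : Fin n), (ρ t (MvPolynomial.X j)).totalDegree ≤ 2) ∨
      ∃ (P : Fin n → k) (s : ℕ),
        (∀ (t : Fin d → kˣ) (j : Fin n),
          MvPolynomial.eval P (ρ t (MvPolynomial.X j)) = P j) ∧
        ∀ (t : Fin d → kˣ) (j : Fin n),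
          ∀ β ∈ (MvPolynomial.aeval (fun l => MvPolynomial.X l + MvPolynomial.C (P l))
            (ρ t (MvPolynomial.X j)) : MvPolynomial (Fin n) k).support,
            ∑ l, β l ≤ 1 ∨ (s + 1 ≤ ∑ l, β l ∧ ∑ l, β l ≤ 2 * s)) :
    ∃ (a : Fin n → Fin d → ℤ) (φ : MvPolynomial (Fin n) k ≃ₐ[k] MvPolynomial (Fin n) k),
      ∀ (t : Fin d → kˣ) (j : Fin n),
        (φ * ρ t * φ⁻¹) (MvPolynomial.X j) =
          MvPolynomial.C ((∏ l, t l ^ a j l : kˣ) : k) * MvPolynomial.X j := by
  classical
  obtain ⟨x, hx⟩ := H974T.IsAlg.exists_rep (ρ := ρ) halg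
  have h1 : ∃ a, H974T.DiagWith ρ a := by
    rcases h with h | ⟨P, s, hP, hgap⟩
    · exact H974T.exists_diagWith_of_quadratic hx h
    · refine H974T.exists_diagWith_of_gap hx hP s (fun t i β hβ => ?_)
      rw [Finsupp.degree_eq_sum]
      exact hgap t i β hβ
  obtain ⟨a, φ, hφ⟩ := h1
  refine ⟨a, φ, fun t j => ?_⟩
  rw [hφ, smul_eq_C_mul]
  rfl

end Pool.Agent.Results.MP_51eb24_ag.Quadratic
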