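import Pool.Agent.H974T.Red2

/-!
# The volume-preserving linearization problem implies the general one

If every volume-preserving algebraic action of `(k^*)^d` on affine `(n + 2)`-space is
linearizable, then every algebraic action of `(k^*)^d` on affine `n`-space (volume-preserving or
not) is linearizable.
-/

set_option autoImplicit false

open MvPolynomial

namespace Pool.Agent.Results.MP_51eb24_ag.VPReduction

/-- An action of the group `(k^*)^d` on affine `n`-space by polynomial automorphisms. -/
abbrev Action (k : Type*) [Field k] (d n : ℕ) : Type _ :=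
  (Fin d → kˣ) →* (MvPolynomial (Fin n) k ≃ₐ[k] MvPolynomial (Fin n) k)

variable {k : Type*} [Field k] {d n : ℕ}

/-- The action `ρ` is algebraic: up to a power of `∏ t_i`, the polynomials `ρ t (X_j)` are
polynomials in `t` and `X`. -/
def IsAlgebraicAction (ρ : Action k d n) : Prop :=
  ∃ (m : ℕ) (F : Fin n → MvPolynomial (Fin d ⊕ Fin n) k),
    ∀ (t : Fin d → kˣ) (j : Fin n),
      C ((∏ i, ((t i : kˣ) : k)) ^ m) * ρ t (X j) =
        aeval (Sum.elim (fun i : Fin d => C ((t i : kˣ) : k))
          (fun l : Fin n => (X l : MvPolynomial (Fin n) k))) (F j)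

/-- The automorphisms `ρ t` have Jacobian determinant one. -/
def IsVolumePreserving (ρ : Action k d n) : Prop :=
  ∀ t : Fin d → kˣ, (Matrix.of fun i j : Fin n => pderiv i (ρ t (X j))).det = 1

/-- Some polynomial automorphism conjugates all `ρ t` to linear maps. -/
def IsLinearizable (ρ : Action k d n) : Prop :=
  ∃ φ : MvPolynomial (Fin n) k ≃ₐ[k] MvPolynomial (Fin n) k,
    ∀ (t : Fin d → kˣ) (j : Fin n), ((φ * ρ t * φ⁻¹) (X j)).IsHomogeneous 1

theorem result (k : Type*) [Field k] [IsAlgClosed k] [CharZero k] (n d : ℕ) (hd : 1 ≤ d)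
    (hvp : ∀ σ : Action k d (n + 2), IsAlgebraicAction σ → IsVolumePreserving σ →
      IsLinearizable σ) :
    ∀ ρ : Action k d n, IsAlgebraicAction ρ → IsLinearizable ρ :=
  fun ρ hρ => H974T.linearizable_of_vp hd hvp ρ hρ

end Pool.Agent.Results.MP_51eb24_ag.VPReduction
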